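import Pool.Agent.H856Z.Cau.Main

namespace Pool.Agent.Results.MP_5da384_an.ConstArc

open Pool.Agent.H856Z.Cau

/-- There is a strictly convex `C¹` billiard table that is not a circle, with a strictly convex `C²`
caustic such that the arc of the caustic between the two tangency points seen from a point of the
table has the same length `c` for every point of the table. -/
theorem result : ∃ (Ω : Set ℂ) (z : ℝ → ℂ) (l : ℝ) (K : Set ℂ) (γ : ℝ → ℂ) (m c : ℝ),
    IsTable Ω z l ∧ (¬ ∃ (O : ℂ) (R : ℝ), Set.range z = Metric.sphere O R) ∧ IsConvexCurve K γ m ∧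
      IsCaustic Ω z K γ ∧ 0 < c ∧ c < m ∧ ConstantArc z γ c :=
  final

end Pool.Agent.Results.MP_5da384_an.ConstArc
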